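import Mathlib
import Pool.Agent.H62.Per.Final

/-! MP_588c6d_co: the minimum number `f n` of distinct perimeters of the triangles spanned by `n`
points of the plane is of order `n`. -/

set_option autoImplicit false

open Finset

namespace Pool.Agent.Results.MP_588c6d_co.LinearGrowth

/-- the Euclidean plane -/
abbrev Plane : Type := EuclideanSpace ℝ (Fin 2)

/-- the set of the perimeters of all triples of pairwise distinct points of `P` (collinear triples
included) -/
def perimeters (P : Finset Plane) : Set ℝ :=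
  {s | ∃ p ∈ P, ∃ q ∈ P, ∃ r ∈ P, p ≠ q ∧ q ≠ r ∧ p ≠ r ∧ s = dist p q + dist q r + dist r p}

/-- the number of distinct perimeters of `P` -/
noncomputable def per (P : Finset Plane) : ℕ := (perimeters P).ncard

/-- the minimum of `per P` over all sets `P` of `n` points of the plane -/
noncomputable def f (n : ℕ) : ℕ := sInf {k | ∃ P : Finset Plane, P.card = n ∧ per P = k}

/-! ### Comparison with coordinates -/

/-- coordinates -/
def co (p : Plane) : ℝ × ℝ := (p 0, p 1)

theorem co_inj : Function.Injective co := by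
  intro p q h
  have h1 : p 0 = q 0 := congrArg Prod.fst h
  have h2 : p 1 = q 1 := congrArg Prod.snd h
  ext i
  fin_cases i
  · exact h1
  · exact h2

theorem co_surj (x : ℝ × ℝ) : ∃ p : Plane, co p = x :=
  ⟨WithLp.toLp 2 ![x.1, x.2], by simp [co]⟩

theorem dist_co (p q : Plane) : dist p q = H62.Per.dd (co p) (co q) := by
  rw [EuclideanSpace.dist_eq]
  unfold H62.Per.dd co
  simp [Fin.sum_univ_two, Real.dist_eq, sq_abs]

theorem perimeters_eq (P : Finset Plane) :
    perimeters P = (H62.Per.perims (P.map ⟨co, co_inj⟩) : Set ℝ) := by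
  ext s
  constructor
  · rintro ⟨p, hp, q, hq, r, hr, h1, h2, h3, rfl⟩
    rw [mem_coe]
    unfold H62.Per.perims
    refine mem_image.2 ⟨(co p, co q, co r), ?_, ?_⟩
    · refine mem_filter.2 ⟨?_, fun h => h1 (co_inj h), fun h => h3 (co_inj h),
        fun h => h2 (co_inj h)⟩
      rw [mem_product, mem_product]
      exact ⟨mem_map_of_mem _ hp, mem_map_of_mem _ hq, mem_map_of_mem _ hr⟩
    · unfold H62.Per.pr
      simp only [← dist_co]
      rw [dist_comm r p]
      ring
  · intro hs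
    rw [mem_coe] at hs
    unfold H62.Per.perims at hs
    obtain ⟨⟨a, b, c⟩, ht, rfl⟩ := mem_image.1 hs
    obtain ⟨hm, h1, h2, h3⟩ := mem_filter.1 ht
    rw [mem_product, mem_product] at hm
    obtain ⟨ha, hb, hc⟩ := hm
    obtain ⟨p, hp, rfl⟩ := mem_map.1 ha
    obtain ⟨q, hq, rfl⟩ := mem_map.1 hb
    obtain ⟨r, hr, rfl⟩ := mem_map.1 hc
    refine ⟨p, hp, q, hq, r, hr, fun h => h1 (by rw [h]), fun h => h3 (by rw [h]),
      fun h => h2 (by rw [h]), ?_⟩
    show H62.Per.pr (co p) (co q) (co r) = _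
    unfold H62.Per.pr
    simp only [← dist_co]
    rw [dist_comm r p]
    ring

theorem per_eq (P : Finset Plane) : per P = (H62.Per.perims (P.map ⟨co, co_inj⟩)).card := by
  unfold per
  rw [perimeters_eq, Set.ncard_coe_finset]

/-! ### The upper bound: equally spaced points of a line -/

/-- equally spaced points -/
noncomputable def pt (i : ℕ) : Plane := WithLp.toLp 2 ![(i : ℝ), 0]

theorem pt_inj : Function.Injective pt := by
  intro i j h
  have h1 : pt i 0 = pt j 0 := by rw [h]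
  have h2 : (i : ℝ) = j := by simpa [pt] using h1
  exact_mod_cast h2

theorem dist_pt (i j : ℕ) : dist (pt i) (pt j) = |(i : ℝ) - j| := by
  rw [EuclideanSpace.dist_eq]
  simp [pt, Fin.sum_univ_two, Real.dist_eq, Real.sqrt_sq_eq_abs]

theorem sum_dist {i j k : ℕ} (hij : i ≠ j) (hjk : j ≠ k) (hik : i ≠ k) {n : ℕ} (hi : i < n)
    (hj : j < n) (hk : k < n) :
    ∃ m ∈ Finset.Icc 2 (n - 1), |(i : ℝ) - j| + |(j : ℝ) - k| + |(k : ℝ) - i| = 2 * (m : ℝ) := by
  have key : ∀ a b c : ℕ, a < b → b < c → c < n →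
      ∃ m ∈ Finset.Icc 2 (n - 1), ((c : ℝ) - a) = m := by
    intro a b c h1 h2 h3
    refine ⟨c - a, ?_, ?_⟩
    · rw [Finset.mem_Icc]; omega
    · rw [Nat.cast_sub (by omega)]
  have habs : ∀ a b : ℕ, a < b → |(a : ℝ) - b| = b - a := by
    intro a b h
    have : (a : ℝ) < b := by exact_mod_cast h
    rw [abs_of_neg (by linarith)]; ring
  have habs' : ∀ a b : ℕ, a < b → |(b : ℝ) - a| = b - a := by
    intro a b h
    rw [abs_sub_comm]; exact habs a b h
  rcases lt_or_gt_of_ne hij with h1 | h1 <;> rcases lt_or_gt_of_ne hjk with h2 | h2 <;>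
    rcases lt_or_gt_of_ne hik with h3 | h3
  · obtain ⟨m, hm, e⟩ := key i j k h1 h2 hk
    exact ⟨m, hm, by rw [habs i j h1, habs j k h2, habs' i k h3]; linarith⟩
  · omega
  · obtain ⟨m, hm, e⟩ := key i k j h3 h2 hj
    exact ⟨m, hm, by rw [habs i j h1, habs' k j h2, habs' i k h3]; linarith⟩
  · obtain ⟨m, hm, e⟩ := key k i j h3 h1 hj
    exact ⟨m, hm, by rw [habs i j h1, habs' k j h2, habs k i h3]; linarith⟩
  · obtain ⟨m, hm, e⟩ := key j i k h1 h3 hk
    exact ⟨m, hm, by rw [habs' j i h1, habs j k h2, habs' i k h3]; linarith⟩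
  · obtain ⟨m, hm, e⟩ := key j k i h2 h3 hi
    exact ⟨m, hm, by rw [habs' j i h1, habs j k h2, habs k i h3]; linarith⟩
  · omega
  · obtain ⟨m, hm, e⟩ := key k j i h2 h1 hi
    exact ⟨m, hm, by rw [habs' j i h1, habs' k j h2, habs k i h3]; linarith⟩

theorem per_line (n : ℕ) : per ((Finset.range n).map ⟨pt, pt_inj⟩) ≤ n - 2 := by
  unfold per
  have hsub : perimeters ((Finset.range n).map ⟨pt, pt_inj⟩) ⊆
      (((Finset.Icc 2 (n - 1)).image (fun m : ℕ => 2 * (m : ℝ)) : Finset ℝ) : Set ℝ) := by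
    rintro s ⟨p, hp, q, hq, r, hr, h1, h2, h3, rfl⟩
    obtain ⟨i, hi, rfl⟩ := mem_map.1 hp
    obtain ⟨j, hj, rfl⟩ := mem_map.1 hq
    obtain ⟨k, hk, rfl⟩ := mem_map.1 hr
    rw [Finset.mem_range] at hi hj hk
    obtain ⟨m, hm, e⟩ := sum_dist (fun h => h1 (by rw [h])) (fun h => h2 (by rw [h]))
      (fun h => h3 (by rw [h])) hi hj hk
    rw [mem_coe, mem_image]
    refine ⟨m, hm, ?_⟩
    show _ = dist (pt i) (pt j) + dist (pt j) (pt k) + dist (pt k) (pt i)
    rw [dist_pt, dist_pt, dist_pt, e]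
  refine (Set.ncard_le_ncard hsub (Finset.finite_toSet _)).trans ?_
  rw [Set.ncard_coe_finset]
  refine card_image_le.trans ?_
  rw [Nat.card_Icc]
  omega

theorem f_le (n : ℕ) : f n ≤ n - 2 := by
  refine (Nat.sInf_le ?_).trans (per_line n)
  exact ⟨(Finset.range n).map ⟨pt, pt_inj⟩, by rw [card_map, card_range], rfl⟩

theorem f_spec (n : ℕ) : ∃ P : Finset Plane, P.card = n ∧ per P = f n := by
  have hne : {k | ∃ P : Finset Plane, P.card = n ∧ per P = k}.Nonempty :=
    ⟨_, (Finset.range n).map ⟨pt, pt_inj⟩, by rw [card_map, card_range], rfl⟩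
  exact Nat.sInf_mem hne

/-- There is a constant `c > 0` such that `c n ≤ f n ≤ n - 2` for all `n ≥ 3`; in particular the
order of growth of `f n` is linear. -/
theorem result :
    (∃ c : ℝ, 0 < c ∧ ∀ n : ℕ, 3 ≤ n → c * (n : ℝ) ≤ (f n : ℝ) ∧ (f n : ℝ) ≤ (n : ℝ) - 2) ∧
      (fun n : ℕ => (f n : ℝ)) =Θ[Filter.atTop] (fun n : ℕ => (n : ℝ)) := by
  obtain ⟨c, hc, h⟩ := H62.Per.linear
  have hlow : ∀ n : ℕ, 3 ≤ n → c * (n : ℝ) ≤ (f n : ℝ) := by
    intro n hn
    obtain ⟨P, hP, hf⟩ := f_spec n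
    have hcard : (P.map ⟨co, co_inj⟩).card = n := by rw [card_map, hP]
    have := h (P.map ⟨co, co_inj⟩) (by rw [hcard]; exact hn)
    rw [hcard, ← per_eq, hf] at this
    exact this
  have hup : ∀ n : ℕ, 3 ≤ n → (f n : ℝ) ≤ (n : ℝ) - 2 := by
    intro n hn
    have h1 : f n + 2 ≤ n := by
      have := f_le n
      omega
    have h2 : ((f n + 2 : ℕ) : ℝ) ≤ n := by exact_mod_cast h1
    push_cast at h2
    linarith
  refine ⟨⟨c, hc, fun n hn => ⟨hlow n hn, hup n hn⟩⟩, ?_, ?_⟩
  · refine Asymptotics.IsBigO.of_bound 1 ?_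
    filter_upwards [Filter.eventually_ge_atTop 3] with n hn
    rw [Real.norm_of_nonneg (Nat.cast_nonneg _), Real.norm_of_nonneg (Nat.cast_nonneg _), one_mul]
    have := hup n hn
    linarith
  · refine Asymptotics.IsBigO.of_bound c⁻¹ ?_
    filter_upwards [Filter.eventually_ge_atTop 3] with n hn
    rw [Real.norm_of_nonneg (Nat.cast_nonneg _), Real.norm_of_nonneg (Nat.cast_nonneg _)]
    have := hlow n hn
    rw [inv_mul_eq_div, le_div_iff₀ hc]
    linarith

end Pool.Agent.Results.MP_588c6d_co.LinearGrowth
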